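import Mathlib
import Pool.Agent.H21.SigmaNb

set_option autoImplicit false
open Metric

namespace Pool.Agent.Results.MP_061dbe_an.Counter

open Pool.Agent.H21.Spiral Pool.Agent.H21.SigmaNb

/-- the class `A` -/
def InA (f : ℂ → ℂ) : Prop := DifferentiableOn ℂ f (ball 0 1) ∧ f 0 = 0 ∧ deriv f 0 = 1

/-- the class `S` -/
def InS (f : ℂ → ℂ) : Prop := InA f ∧ Set.InjOn f (ball 0 1)

/-- the neighbourhood `Σ_δ(f)` -/
def InSigma (δ : ℝ) (f g : ℂ → ℂ) : Prop :=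
  InA g ∧ ∀ z ∈ ball (0 : ℂ) 1,
    ‖(deriv g z - deriv f z) - (g z - f z) / z‖ + ‖(deriv g z - deriv f z) + (g z - f z) / z‖ < 2 * δ

/-- the Hadamard product, from the Taylor coefficients at `0` -/
noncomputable def had (f g : ℂ → ℂ) (z : ℂ) : ℂ :=
  ∑' n : ℕ, (iteratedDeriv n f 0 / (n.factorial : ℂ)) *
    (iteratedDeriv n g 0 / (n.factorial : ℂ)) * z ^ n

/-- the dual `S*` of `S` -/
def InDual (f : ℂ → ℂ) : Prop :=
  InA f ∧ ∀ k : ℂ → ℂ, InS k → ∀ z : ℂ, 0 < ‖z‖ → ‖z‖ < 1 → had f k z ≠ 0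

theorem result :
    ¬ ∀ (x : ℂ) (ρ : ℝ), ‖x‖ ≤ ρ → ρ ≤ 1 → ∀ f : ℂ → ℂ,
      InSigma (1 / (1 + ρ) ^ 2) (fun z => z / (1 - x * z)) f → InDual f := by
  intro H
  have h1 := H 0 0 (by simp) (by norm_num) g ⟨⟨g_diff.differentiableOn, g_zero, g_one⟩, ?_⟩
  · refine h1.2 (h c) ⟨⟨fun z hz => (h_deriv c hz).differentiableAt.differentiableWithinAt,
      by simp [h], ?_⟩, hc_inj⟩ r (by rw [r_norm]; norm_num) (by rw [r_norm]; norm_num) had_zero
    rw [(h_deriv c (Metric.mem_ball_self one_pos)).deriv]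
    simp [W_zero]
  · intro z hz
    simp only [zero_mul, sub_zero, div_one, add_zero, one_pow, mul_one, deriv_id'']
    by_cases hz0 : z = 0
    · simp [hz0, g_one]
    · exact g_nb z hz hz0

end Pool.Agent.Results.MP_061dbe_an.Counter
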